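import Pool.Agent.helper3.T6.SpecH

set_option autoImplicit false

/-!
# T6, row HINJ: the injection into the tuples
-/

namespace Pool.Agent.T6

open Finset NumberField Pool.Agent.helper3.FT Pool.Agent.helper47.RA Pool.Agent.T5
open scoped nonZeroDivisors

/-- what TD needs about one pair -/
def HINJ_good (η κ N Y Y₂ : ℝ) (x : ℕ × Tpl) : Prop :=
  1 ≤ x.1 ∧ (x.1 : ℝ) ≤ N ^ η ∧ Cen κ (N * (x.1 : ℝ) ^ 2) Y Y₂ x.2 ∧ (x.1 : ℤ) ^ 2 ∣ dis x.2 ∧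
    ∃ d₁ d₂ : ℕ, x.1 = d₁ * d₂ ∧ Nat.Coprime d₁ d₂ ∧ (d₁ : ℤ) ∣ x.2.2.1 ∧ (d₁ : ℤ) ∣ x.2.2.2.1 ∧
      IsCoprime (d₂ : ℤ) (x.2.2.2.2 * lam x.2)

lemma HINJ_fin {K : Type} [Field K] [NumberField K] (Q : QF K) (hD : Q.D < 0)
    (κ N Y Y₂ H : ℝ) : (GS Q κ N Y Y₂ H).Finite := by
  have h1 : (⋃ a ∈ IA K Y, (fun α => (a, α)) '' AL Q a (Y₂ * √(-(Q.D : ℝ)) / √N)).Finite :=
    Set.Finite.biUnion (Pool.Agent.T5.SFA.1 K Y) (fun a _ => (Pool.Agent.T5.SFA.2.1 K Q hD a _).image _)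
  refine h1.subset ?_
  rintro ⟨a, α⟩ ⟨h2, h3, -⟩
  exact Set.mem_biUnion h2 ⟨α, h3, rfl⟩

lemma HINJ_tup {K : Type} [Field K] [NumberField K] (Q : QF K) (hD : Q.D < 0)
    (κ N Y Y₂ η : ℝ) (hN : 0 < N) (hY : 0 < Y) (hY₂ : 0 < Y₂) (hD1 : N / 2 < -(Q.D : ℝ))
    (hD2 : -(Q.D : ℝ) ≤ N) (x : Ideal (𝓞 K) × 𝓞 K) (hx : x ∈ GS Q κ N Y Y₂ (N ^ η)) (γ : 𝓞 K)
    (hA : Adm Q x.1 x.2 γ) (hG : GoodR Q κ Y₂ x.1 x.2 γ) (hH : (gd Q x.2 γ : ℝ) ≤ N ^ η) (t : Tpl)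
    (ht : TupOf Q x.1 x.2 γ (gd Q x.2 γ) t) : HINJ_good η κ N Y Y₂ (gd Q x.2 γ, t) := by
  obtain ⟨h1, h2, -⟩ := hx
  have hg : 1 ≤ gd Q x.2 γ := by
    have h0 := hA.n0
    unfold gd
    exact Int.gcd_pos_of_ne_zero_left _ h0.ne'
  refine ⟨hg, hH, ?_, ?_, ht.dd⟩
  · show Cen κ (N * (gd Q x.2 γ : ℝ) ^ 2) Y Y₂ t
    rw [Pool.Agent.T5.ACEN K Q hD x.1 x.2 γ (gd Q x.2 γ) t hA ht hg κ N Y Y₂ hN hY hY₂]
    exact ⟨h1.2.2.2.2.1, h1.2.2.2.2.2, hD1, hD2, h2.2.2, hG⟩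
  · show ((gd Q x.2 γ : ℕ) : ℤ) ^ 2 ∣ dis t
    rw [ht.D]
    exact dvd_mul_left _ _

lemma HINJ_one (hALG : ALG_stmt) (κ N Y Y₂ η : ℝ)
    (hN : 10 ≤ N) (hY : 0 < Y) (hY₂ : 0 < Y₂) (D : ℤ) (hD : D ∈ DN N) :
    ∃ FD : Finset (ℕ × Tpl), (FD.card : ℝ) = SF (fun _ E => ((GS E.Q κ N Y Y₂ (N ^ η)).ncard : ℝ)) D ∧
      ∀ x ∈ FD, HINJ_good η κ N Y Y₂ x ∧ dis x.2 = D * (x.1 : ℤ) ^ 2 := by
  classical
  by_cases h : Nonempty (Fld D)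
  · have hSF : SF (fun _ E => ((GS E.Q κ N Y Y₂ (N ^ η)).ncard : ℝ)) D =
        ((GS h.some.Q κ N Y Y₂ (N ^ η)).ncard : ℝ) := by
      unfold SF
      rw [dif_pos h]
    obtain ⟨E, hE⟩ : ∃ E : Fld D, E = h.some := ⟨_, rfl⟩
    rw [hSF, ← hE]
    unfold DN at hD
    rw [mem_filter, mem_Icc] at hD
    obtain ⟨⟨hD1, -⟩, -, hD3⟩ := hD
    have hDE : (E.Q.D : ℝ) = D := by rw [E.hD]
    have hD4 : -(E.Q.D : ℝ) ≤ N := by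
      rw [hDE]
      have h5 : -(D : ℝ) ≤ (⌊N⌋ : ℝ) := by
        have : -D ≤ ⌊N⌋ := by omega
        exact_mod_cast this
      exact h5.trans (Int.floor_le N)
    have hD5 : N / 2 < -(E.Q.D : ℝ) := by rw [hDE]; exact hD3
    have hD6 : E.Q.D < -4 := by
      have : (E.Q.D : ℝ) < ((-4 : ℤ) : ℝ) := by push_cast; linarith
      exact_mod_cast this
    have hD7 : E.Q.D < 0 := by omega
    have hfin := HINJ_fin E.Q hD7 κ N Y Y₂ (N ^ η)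
    obtain ⟨φ, hφ1, hφ2, -⟩ := hALG E.K E.Q E.fin hD6
    have hex : ∀ x ∈ GS E.Q κ N Y Y₂ (N ^ η), ∃ γ, Adm E.Q x.1 x.2 γ ∧ GoodR E.Q κ Y₂ x.1 x.2 γ ∧
        (gd E.Q x.2 γ : ℝ) ≤ N ^ η := fun x hx => hx.2.2
    choose! γ hγ1 hγ2 hγ3 using hex
    refine ⟨hfin.toFinset.image (fun x => (gd E.Q x.2 (γ x), φ x.1 x.2)), ?_, ?_⟩
    · rw [card_image_of_injOn, Set.ncard_eq_toFinset_card _ hfin]
      intro x hx x' hx' hxx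
      rw [Set.Finite.coe_toFinset] at hx hx'
      have h7 := Prod.ext_iff.1 hxx
      have h6 := hφ2 x.1 x.2 (γ x) x'.1 x'.2 (γ x') (hγ1 x hx) (hγ1 x' hx') h7.1 h7.2
      exact Prod.ext h6.1 h6.2
    · intro y hy
      obtain ⟨x, hx, rfl⟩ := mem_image.1 hy
      rw [Set.Finite.mem_toFinset] at hx
      have hT := hφ1 x.1 x.2 (γ x) (hγ1 x hx)
      refine ⟨HINJ_tup E.Q hD7 κ N Y Y₂ η (by linarith) hY hY₂ hD5 hD4 x hx (γ x) (hγ1 x hx)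
        (hγ2 x hx) (hγ3 x hx) _ hT, ?_⟩
      show dis (φ x.1 x.2) = D * ((gd E.Q x.2 (γ x) : ℕ) : ℤ) ^ 2
      rw [hT.D, E.hD]
  · refine ⟨∅, ?_, by simp⟩
    unfold SF
    rw [dif_neg h]
    simp

theorem HINJ : HINJ_stmt := by
  classical
  intro hALG hTD
  obtain ⟨η, hη, hB⟩ := hTD
  refine ⟨η, hη, fun κ A hκ hA => ?_⟩
  obtain ⟨C, N₀, hC, hB⟩ := hB κ A hκ hA
  refine ⟨C, max N₀ 10, hC, ?_⟩
  intro N Y Y₂ hN hY hYY hY1 hY2 hY3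
  have hN0 : N₀ ≤ N := (le_max_left _ _).trans hN
  have hN10 : (10 : ℝ) ≤ N := (le_max_right _ _).trans hN
  have hY₂ : 0 < Y₂ := hY.trans_le hYY
  have hex := HINJ_one hALG κ N Y Y₂ η hN10 hY hY₂
  choose! FD hFD1 hFD2 using hex
  have hdisj : ∀ D ∈ DN N, ∀ D' ∈ DN N, D ≠ D' → Disjoint (FD D) (FD D') := by
    intro D hD D' hD' hne
    rw [Finset.disjoint_left]
    intro x hx hx'
    have h1 := (hFD2 D hD x hx).2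
    have h2 := (hFD2 D' hD' x hx').2
    rw [h1] at h2
    have h4 : 1 ≤ x.1 := (hFD2 D hD x hx).1.1
    have h3 : (x.1 : ℤ) ^ 2 ≠ 0 := pow_ne_zero 2 (by exact_mod_cast (by omega : x.1 ≠ 0))
    exact hne (mul_right_cancel₀ h3 h2)
  have hcard : (((DN N).biUnion FD).card : ℝ) =
      ∑ D ∈ DN N, SF (fun _ E => ((GS E.Q κ N Y Y₂ (N ^ η)).ncard : ℝ)) D := by
    rw [card_biUnion hdisj, Nat.cast_sum]
    exact Finset.sum_congr rfl fun D hD => hFD1 D hD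
  rw [← hcard]
  refine hB N Y Y₂ hN0 hYY hY1 hY2 hY3 _ ?_
  intro x hx
  obtain ⟨D, hD, hxD⟩ := mem_biUnion.1 hx
  obtain ⟨g1, g2, g3, g4, -⟩ := (hFD2 D hD x hxD).1
  exact ⟨g1, g2, g3, g4⟩

end Pool.Agent.T6
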